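import Mathlib

/-!
# Rank of maximum-likelihood DPP kernels (MP_dbbe21_pr, Q1)

Ground set of size 3, training set: six times the empty set and once each of the three pairs.
Every optimal marginal kernel has rank 3.
-/

open Finset

namespace Pool.Agent.Results.MP_dbbe21_pr.HigherRank

/-- Marginal kernels: real symmetric positive semidefinite matrices with eigenvalues at most one
(`1 - K` is positive semidefinite too). -/
def IsMarginalKernel {N : ℕ} (K : Matrix (Fin N) (Fin N) ℝ) : Prop :=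
  K.PosSemidef ∧ (1 - K).PosSemidef

/-- The principal minor `det K_S`. -/
noncomputable def minor {N : ℕ} (K : Matrix (Fin N) (Fin N) ℝ) (S : Finset (Fin N)) : ℝ :=
  (K.submatrix (fun i : S => (i : Fin N)) (fun i : S => (i : Fin N))).det

/-- `P` is the law of the determinantal point process with marginal kernel `K`:
`∑_{T ⊇ S} P T = det K_S` for every `S`. -/
def IsLaw {N : ℕ} (K : Matrix (Fin N) (Fin N) ℝ) (P : Finset (Fin N) → ℝ) : Prop :=
  ∀ S : Finset (Fin N), ∑ T ∈ univ.filter (fun T => S ⊆ T), P T = minor K S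

/-- The likelihood of the training set `X` under the law `P`. -/
noncomputable def likelihood {N : ℕ} (P : Finset (Fin N) → ℝ) (X : List (Finset (Fin N))) : ℝ :=
  (X.map P).prod

/-- `K` is an optimal marginal kernel for the training set `X`, and `P` is its law. -/
def IsOptimal {N : ℕ} (K : Matrix (Fin N) (Fin N) ℝ) (P : Finset (Fin N) → ℝ)
    (X : List (Finset (Fin N))) : Prop :=
  IsMarginalKernel K ∧ IsLaw K P ∧
    ∀ K' P', IsMarginalKernel K' → IsLaw K' P' → likelihood P' X ≤ likelihood P X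

/-! ### Minors of `3 × 3` matrices -/

section minors

variable (K : Matrix (Fin 3) (Fin 3) ℝ)

lemma minor_empty : minor K ∅ = 1 := by
  unfold minor
  exact Matrix.det_isEmpty

lemma minor_single (i : Fin 3) : minor K {i} = K i i := by
  unfold minor
  have e : Fin 1 ≃ ({i} : Finset (Fin 3)) :=
    Equiv.ofBijective (fun _ => ⟨i, by simp⟩) ⟨fun a b _ => Subsingleton.elim a b, fun x => by
      obtain ⟨x, hx⟩ := x
      exact ⟨0, by simp only [Finset.mem_singleton] at hx; subst hx; rfl⟩⟩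
  rw [← Matrix.det_submatrix_equiv_self e, Matrix.det_fin_one]
  simp only [Matrix.submatrix_apply]
  have h : ((e 0 : ({i} : Finset (Fin 3))) : Fin 3) = i := Finset.mem_singleton.1 (e 0).2
  rw [h]

lemma minor_pair (i j : Fin 3) (hij : i ≠ j) :
    minor K {i, j} = K i i * K j j - K i j * K j i := by
  unfold minor
  let g : Fin 2 → ({i, j} : Finset (Fin 3)) := ![⟨i, by simp⟩, ⟨j, by simp⟩]
  have hg : Function.Bijective g := by
    constructor
    · intro a b hab
      fin_cases a <;> fin_cases b <;> simp_all [g]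
    · intro x
      obtain ⟨x, hx⟩ := x
      rw [Finset.mem_insert, Finset.mem_singleton] at hx
      rcases hx with rfl | rfl
      · exact ⟨0, rfl⟩
      · exact ⟨1, rfl⟩
  rw [← Matrix.det_submatrix_equiv_self (Equiv.ofBijective g hg), Matrix.det_fin_two]
  simp [g]

lemma minor_univ : minor K univ = K.det := by
  unfold minor
  have := Matrix.det_submatrix_equiv_self (Equiv.subtypeUnivEquiv (fun x : Fin 3 => mem_univ x)) K
  rw [← this]
  rfl

end minors

/-- The law of the process in terms of the minors. -/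
lemma law_values {K : Matrix (Fin 3) (Fin 3) ℝ} {P : Finset (Fin 3) → ℝ} (h : IsLaw K P) :
    P {0, 1} = K 0 0 * K 1 1 - K 0 1 * K 1 0 - K.det ∧
    P {0, 2} = K 0 0 * K 2 2 - K 0 2 * K 2 0 - K.det ∧
    P {1, 2} = K 1 1 * K 2 2 - K 1 2 * K 2 1 - K.det ∧
    P ∅ = 1 - K 0 0 - K 1 1 - K 2 2 + (K 0 0 * K 1 1 - K 0 1 * K 1 0) +
      (K 0 0 * K 2 2 - K 0 2 * K 2 0) + (K 1 1 * K 2 2 - K 1 2 * K 2 1) - K.det := by
  have h0 := h ∅
  have h1 := h {0}
  have h2 := h {1}
  have h3 := h {2}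
  have h01 := h {0, 1}
  have h02 := h {0, 2}
  have h12 := h {1, 2}
  have hu := h univ
  rw [minor_empty] at h0
  rw [minor_single] at h1 h2 h3
  rw [minor_pair _ _ _ (by decide)] at h01 h02 h12
  rw [minor_univ] at hu
  have f0 : (univ.filter (fun T : Finset (Fin 3) => ∅ ⊆ T)) =
      {∅, {0}, {1}, {2}, {0, 1}, {0, 2}, {1, 2}, univ} := by decide
  have f1 : (univ.filter (fun T : Finset (Fin 3) => {0} ⊆ T)) =
      {{0}, {0, 1}, {0, 2}, univ} := by decide
  have f2 : (univ.filter (fun T : Finset (Fin 3) => {1} ⊆ T)) =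
      {{1}, {0, 1}, {1, 2}, univ} := by decide
  have f3 : (univ.filter (fun T : Finset (Fin 3) => {2} ⊆ T)) =
      {{2}, {0, 2}, {1, 2}, univ} := by decide
  have f01 : (univ.filter (fun T : Finset (Fin 3) => {0, 1} ⊆ T)) = {{0, 1}, univ} := by decide
  have f02 : (univ.filter (fun T : Finset (Fin 3) => {0, 2} ⊆ T)) = {{0, 2}, univ} := by decide
  have f12 : (univ.filter (fun T : Finset (Fin 3) => {1, 2} ⊆ T)) = {{1, 2}, univ} := by decide
  have fu : (univ.filter (fun T : Finset (Fin 3) => univ ⊆ T)) = {univ} := by decide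
  rw [f0] at h0
  rw [f1] at h1
  rw [f2] at h2
  rw [f3] at h3
  rw [f01, sum_pair (by decide)] at h01
  rw [f02, sum_pair (by decide)] at h02
  rw [f12, sum_pair (by decide)] at h12
  rw [fu, sum_singleton] at hu
  rw [sum_insert (by decide), sum_insert (by decide), sum_insert (by decide),
    sum_singleton] at h1 h2 h3
  rw [sum_insert (by decide), sum_insert (by decide), sum_insert (by decide),
    sum_insert (by decide), sum_insert (by decide), sum_insert (by decide),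
    sum_insert (by decide), sum_singleton] at h0
  refine ⟨by linarith, by linarith, by linarith, by linarith⟩

/-! ### Facts on marginal kernels of size three -/

/-- the entries of a symmetric positive semidefinite `3 × 3` matrix -/
lemma psd_facts {K : Matrix (Fin 3) (Fin 3) ℝ} (h : K.PosSemidef) :
    (K 1 0 = K 0 1 ∧ K 2 0 = K 0 2 ∧ K 2 1 = K 1 2) ∧
    (0 ≤ K 0 0 ∧ 0 ≤ K 1 1 ∧ 0 ≤ K 2 2) ∧
    (K 0 1 ^ 2 ≤ K 0 0 * K 1 1 ∧ K 0 2 ^ 2 ≤ K 0 0 * K 2 2 ∧ K 1 2 ^ 2 ≤ K 1 1 * K 2 2) ∧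
    0 ≤ K.det := by
  have hs : ∀ i j, K j i = K i j := by
    intro i j
    have := h.1.apply i j
    simpa using this
  have hp : ∀ i j : Fin 3, K i j ^ 2 ≤ K i i * K j j := by
    intro i j
    have h1 := (h.submatrix (![i, j] : Fin 2 → Fin 3)).det_nonneg
    rw [Matrix.det_fin_two] at h1
    simp only [Matrix.submatrix_apply, Matrix.cons_val_zero, Matrix.cons_val_one] at h1
    rw [hs i j] at h1
    nlinarith
  exact ⟨⟨hs 0 1, hs 0 2, hs 1 2⟩, ⟨h.diag_nonneg, h.diag_nonneg, h.diag_nonneg⟩,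
    ⟨hp 0 1, hp 0 2, hp 1 2⟩, h.det_nonneg⟩

lemma det_sym {K : Matrix (Fin 3) (Fin 3) ℝ}
    (hs : K 1 0 = K 0 1 ∧ K 2 0 = K 0 2 ∧ K 2 1 = K 1 2) :
    K.det = K 0 0 * K 1 1 * K 2 2 + 2 * K 0 1 * K 0 2 * K 1 2 - K 0 0 * K 1 2 ^ 2 -
      K 1 1 * K 0 2 ^ 2 - K 2 2 * K 0 1 ^ 2 := by
  rw [Matrix.det_fin_three, hs.1, hs.2.1, hs.2.2]
  ring

/-- Hadamard's inequality in size three -/
lemma hadamard {x y z a b c : ℝ} (hx : 0 ≤ x) (hy : 0 ≤ y) (hz : 0 ≤ z) (hab : a ^ 2 ≤ x * y) :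
    x * y * z + 2 * a * b * c - x * c ^ 2 - y * b ^ 2 - z * a ^ 2 ≤ x * y * z := by
  have h1 : (2 * a * b * c) ^ 2 ≤ (x * c ^ 2 + y * b ^ 2) ^ 2 := by
    nlinarith [sq_nonneg (x * c ^ 2 - y * b ^ 2),
      mul_nonneg (mul_nonneg (sq_nonneg b) (sq_nonneg c)) (sub_nonneg.2 hab)]
  have h2 := abs_le_of_sq_le_sq h1 (by positivity)
  have h3 : 0 ≤ z * a ^ 2 := by positivity
  linarith [(abs_le.1 h2).2]

lemma amgm {α β γ : ℝ} (hα : 0 ≤ α) (hβ : 0 ≤ β) (hγ : 0 ≤ γ) :
    27 * (α * β * γ) ≤ (α + β + γ) ^ 3 := by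
  nlinarith [mul_nonneg hα (sq_nonneg (β - γ)), mul_nonneg hβ (sq_nonneg (γ - α)),
    mul_nonneg hγ (sq_nonneg (α - β)), mul_nonneg (add_nonneg (add_nonneg hα hβ) hγ)
      (add_nonneg (add_nonneg (sq_nonneg (α - β)) (sq_nonneg (β - γ))) (sq_nonneg (γ - α)))]

lemma angles {α β γ r : ℝ} (hα : 0 ≤ α) (hβ : 0 ≤ β) (hγ : 0 ≤ γ) (hα1 : α ≤ 1) (hβ1 : β ≤ 1)
    (hγ1 : γ ≤ 1) (hr : α * β * γ = r ^ 2) (hs : α + β + γ = 1 + 2 * r) :
    (1 - α) * (1 - β) * (1 - γ) ≤ 27 / 64 := by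
  have h1 : (1 - α) * (1 - β) * (1 - γ) ≤ (1 - r) ^ 2 / 3 := by
    nlinarith [sq_nonneg (α - β), sq_nonneg (β - γ), sq_nonneg (γ - α)]
  have h2 := amgm hα hβ hγ
  rw [hr, hs] at h2
  have h3 : 0 ≤ (r - 1) ^ 2 * (8 * r + 1) := by nlinarith
  have h4 : r ≤ 1 := by linarith
  have h5 : -(1 / 8) ≤ r := by
    by_contra hlt
    push Not at hlt
    have h6 : 0 < (r - 1) ^ 2 := by nlinarith
    nlinarith
  nlinarith

/-- The product of the pair minors when the determinant vanishes. -/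
lemma minors_prod {x y z a b c : ℝ} (hx : 0 ≤ x) (hy : 0 ≤ y) (hz : 0 ≤ z)
    (hab : a ^ 2 ≤ x * y) (hac : b ^ 2 ≤ x * z) (hbc : c ^ 2 ≤ y * z)
    (hdet : x * y * z + 2 * a * b * c - x * c ^ 2 - y * b ^ 2 - z * a ^ 2 = 0) :
    (x * y - a ^ 2) * (x * z - b ^ 2) * (y * z - c ^ 2) ≤ 27 / 64 * (x * y * z) ^ 2 := by
  rcases hx.eq_or_lt with rfl | hx
  · have : a = 0 := by nlinarith [sq_nonneg a]
    subst this
    simp
  rcases hy.eq_or_lt with rfl | hy
  · have : a = 0 := by nlinarith [sq_nonneg a]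
    subst this
    simp
  rcases hz.eq_or_lt with rfl | hz
  · have : b = 0 := by nlinarith [sq_nonneg b]
    subst this
    simp
  have h := angles (α := a ^ 2 / (x * y)) (β := b ^ 2 / (x * z)) (γ := c ^ 2 / (y * z))
    (r := a * b * c / (x * y * z)) (by positivity) (by positivity) (by positivity)
    (by rw [div_le_one (by positivity)]; exact hab) (by rw [div_le_one (by positivity)]; exact hac)
    (by rw [div_le_one (by positivity)]; exact hbc) (by field_simp)
    (by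
      field_simp
      nlinarith)
  have e1 : (1 - a ^ 2 / (x * y)) * (1 - b ^ 2 / (x * z)) * (1 - c ^ 2 / (y * z)) =
      (x * y - a ^ 2) * (x * z - b ^ 2) * (y * z - c ^ 2) / (x * y * z) ^ 2 := by
    field_simp
  rw [e1, div_le_iff₀ (by positivity)] at h
  exact h

lemma one_var {x : ℝ} (hx0 : 0 ≤ x) (hx1 : x ≤ 1) :
    0 ≤ x * (1 - x) ^ 3 ∧ x * (1 - x) ^ 3 ≤ 27 / 256 := by
  have h1 : 0 ≤ 1 - x := by linarith
  refine ⟨by positivity, ?_⟩
  have h2 : 27 - 256 * (x * (1 - x) ^ 3) = (1 - 4 * x) ^ 2 * ((4 * x - 5) ^ 2 + 2) := by ring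
  have h3 : 0 ≤ (1 - 4 * x) ^ 2 * ((4 * x - 5) ^ 2 + 2) := by positivity
  linarith

/-- The likelihood of our training set as a function of the entries. -/
noncomputable def lik (x y z a b c : ℝ) : ℝ :=
  (1 - x - y - z + (x * y - a ^ 2) + (x * z - b ^ 2) + (y * z - c ^ 2) -
      (x * y * z + 2 * a * b * c - x * c ^ 2 - y * b ^ 2 - z * a ^ 2)) ^ 6 *
    ((x * y - a ^ 2 - (x * y * z + 2 * a * b * c - x * c ^ 2 - y * b ^ 2 - z * a ^ 2)) *
    (x * z - b ^ 2 - (x * y * z + 2 * a * b * c - x * c ^ 2 - y * b ^ 2 - z * a ^ 2)) *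
    (y * z - c ^ 2 - (x * y * z + 2 * a * b * c - x * c ^ 2 - y * b ^ 2 - z * a ^ 2)))

/-- The training set. -/
def X : List (Finset (Fin 3)) := [∅, ∅, ∅, ∅, ∅, ∅, {0, 1}, {0, 2}, {1, 2}]

lemma likelihood_eq {K : Matrix (Fin 3) (Fin 3) ℝ} {P : Finset (Fin 3) → ℝ}
    (hK : K.PosSemidef) (h : IsLaw K P) :
    likelihood P X = lik (K 0 0) (K 1 1) (K 2 2) (K 0 1) (K 0 2) (K 1 2) := by
  obtain ⟨h1, h2, h3, h0⟩ := law_values h
  obtain ⟨hs, -, -, -⟩ := psd_facts hK
  have hd := det_sym hs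
  rw [hs.1] at h1 h0
  rw [hs.2.1] at h2 h0
  rw [hs.2.2] at h3 h0
  rw [hd] at h0 h1 h2 h3
  simp only [← pow_two] at h0 h1 h2 h3
  have hprod : likelihood P X = P ∅ ^ 6 * (P {0, 1} * P {0, 2} * P {1, 2}) := by
    unfold likelihood X
    simp only [List.map_cons, List.map_nil, List.prod_cons, List.prod_nil]
    ring
  rw [hprod, h0, h1, h2, h3]
  rfl

lemma gen_eq (x y z x' y' z' : ℝ) : (x' * y' * z') ^ 6 * (27 / 64 * (x * y * z) ^ 2) =
    (x * x' ^ 3) ^ 2 * (y * y' ^ 3) ^ 2 * (z * z' ^ 3) ^ 2 * (27 / 64) := by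
  ring

lemma cubes {u v w : ℝ} (hu0 : 0 ≤ u) (hv0 : 0 ≤ v) (hw0 : 0 ≤ w) (hu : u ≤ 27 / 256)
    (hv : v ≤ 27 / 256) (hw : w ≤ 27 / 256) :
    u ^ 2 * v ^ 2 * w ^ 2 * (27 / 64) ≤ (27 / 256) ^ 6 * (27 / 64) := by
  have s1 : u * v * w ≤ 27 / 256 * (27 / 256) * (27 / 256) := by gcongr
  have s2 : (u * v * w) ^ 2 ≤ (27 / 256 * (27 / 256) * (27 / 256)) ^ 2 :=
    pow_le_pow_left₀ (by positivity) s1 2
  have e1 : (u * v * w) ^ 2 = u ^ 2 * v ^ 2 * w ^ 2 := by ring
  rw [e1] at s2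
  have e2 : (27 / 256 * (27 / 256) * (27 / 256) : ℝ) ^ 2 = (27 / 256) ^ 6 := by norm_num
  rw [e2] at s2
  exact mul_le_mul_of_nonneg_right s2 (by norm_num)

lemma final_step {D m x y z : ℝ} (hD : 0 ≤ D) (hDle : D ≤ (1 - x) * (1 - y) * (1 - z))
    (hm0 : 0 ≤ m) (hm : m ≤ 27 / 64 * (x * y * z) ^ 2) (hx : 0 ≤ x) (hy : 0 ≤ y) (hz : 0 ≤ z)
    (hx1 : x ≤ 1) (hy1 : y ≤ 1) (hz1 : z ≤ 1) : D ^ 6 * m ≤ (27 / 256) ^ 6 * (27 / 64) := by
  have hpow : D ^ 6 ≤ ((1 - x) * (1 - y) * (1 - z)) ^ 6 := pow_le_pow_left₀ hD hDle 6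
  obtain ⟨ox0, ox⟩ := one_var hx hx1
  obtain ⟨oy0, oy⟩ := one_var hy hy1
  obtain ⟨oz0, oz⟩ := one_var hz hz1
  have s1 : D ^ 6 * m ≤ ((1 - x) * (1 - y) * (1 - z)) ^ 6 * (27 / 64 * (x * y * z) ^ 2) :=
    mul_le_mul hpow hm hm0 (by positivity)
  rw [gen_eq] at s1
  exact s1.trans (cubes ox0 oy0 oz0 ox oy oz)

lemma lik_low_real {x y z a b c : ℝ} (hx : 0 ≤ x) (hy : 0 ≤ y) (hz : 0 ≤ z)
    (hab : a ^ 2 ≤ x * y) (hac : b ^ 2 ≤ x * z) (hbc : c ^ 2 ≤ y * z)
    (hx1 : 0 ≤ 1 - x) (hy1 : 0 ≤ 1 - y) (hz1 : 0 ≤ 1 - z)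
    (hab1 : (0 - a) ^ 2 ≤ (1 - x) * (1 - y))
    (hd1 : 0 ≤ (1 - x) * (1 - y) * (1 - z) + 2 * (0 - a) * (0 - b) * (0 - c) -
      (1 - x) * (0 - c) ^ 2 - (1 - y) * (0 - b) ^ 2 - (1 - z) * (0 - a) ^ 2)
    (hd : x * y * z + 2 * a * b * c - x * c ^ 2 - y * b ^ 2 - z * a ^ 2 = 0) :
    lik x y z a b c ≤ (27 / 256) ^ 6 * (27 / 64) := by
  have hP0 : 1 - x - y - z + (x * y - a ^ 2) + (x * z - b ^ 2) + (y * z - c ^ 2) -
      (x * y * z + 2 * a * b * c - x * c ^ 2 - y * b ^ 2 - z * a ^ 2) =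
      (1 - x) * (1 - y) * (1 - z) + 2 * (0 - a) * (0 - b) * (0 - c) -
      (1 - x) * (0 - c) ^ 2 - (1 - y) * (0 - b) ^ 2 - (1 - z) * (0 - a) ^ 2 := by
    ring
  unfold lik
  rw [hP0, hd, sub_zero, sub_zero, sub_zero]
  exact final_step hd1 (hadamard hx1 hy1 hz1 (b := 0 - b) (c := 0 - c) hab1)
    (mul_nonneg (mul_nonneg (sub_nonneg.2 hab) (sub_nonneg.2 hac)) (sub_nonneg.2 hbc))
    (minors_prod hx hy hz hab hac hbc hd) hx hy hz (by linarith) (by linarith) (by linarith)

lemma lik_low {K : Matrix (Fin 3) (Fin 3) ℝ} (hK : IsMarginalKernel K) (hdet : K.det = 0) :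
    lik (K 0 0) (K 1 1) (K 2 2) (K 0 1) (K 0 2) (K 1 2) ≤ (27 / 256) ^ 6 * (27 / 64) := by
  obtain ⟨hs, ⟨hx, hy, hz⟩, ⟨hab, hac, hbc⟩, -⟩ := psd_facts hK.1
  obtain ⟨hs1, ⟨hx1, hy1, hz1⟩, ⟨hab1, -, -⟩, hd1⟩ := psd_facts hK.2
  have hd := det_sym hs
  rw [hdet] at hd
  rw [det_sym hs1] at hd1
  simp only [Matrix.sub_apply, Matrix.one_apply_eq, Matrix.one_apply_ne
    (show (0 : Fin 3) ≠ 1 by decide), Matrix.one_apply_ne (show (0 : Fin 3) ≠ 2 by decide),
    Matrix.one_apply_ne (show (1 : Fin 3) ≠ 2 by decide)] at hx1 hy1 hz1 hab1 hd1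
  exact lik_low_real hx hy hz hab hac hbc hx1 hy1 hz1 hab1 hd1 hd.symm

/-- The explicit law attached to a kernel of size three. -/
noncomputable def lawOf (K : Matrix (Fin 3) (Fin 3) ℝ) (S : Finset (Fin 3)) : ℝ :=
  if S = univ then K.det else
  if S = {0, 1} then minor K {0, 1} - K.det else
  if S = {0, 2} then minor K {0, 2} - K.det else
  if S = {1, 2} then minor K {1, 2} - K.det else
  if S = {0} then minor K {0} - minor K {0, 1} - minor K {0, 2} + K.det else
  if S = {1} then minor K {1} - minor K {0, 1} - minor K {1, 2} + K.det else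
  if S = {2} then minor K {2} - minor K {0, 2} - minor K {1, 2} + K.det else
  1 - minor K {0} - minor K {1} - minor K {2} + minor K {0, 1} + minor K {0, 2} +
    minor K {1, 2} - K.det

lemma isLaw_lawOf (K : Matrix (Fin 3) (Fin 3) ℝ) : IsLaw K (lawOf K) := by
  intro S
  have hS : S = ∅ ∨ S = {0} ∨ S = {1} ∨ S = {2} ∨ S = {0, 1} ∨ S = {0, 2} ∨ S = {1, 2} ∨
      S = univ := by
    revert S
    decide
  have v0 : lawOf K ∅ = 1 - minor K {0} - minor K {1} - minor K {2} + minor K {0, 1} +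
      minor K {0, 2} + minor K {1, 2} - K.det := by
    unfold lawOf
    rw [if_neg (by decide), if_neg (by decide), if_neg (by decide), if_neg (by decide),
      if_neg (by decide), if_neg (by decide), if_neg (by decide)]
  have v1 : lawOf K {0} = minor K {0} - minor K {0, 1} - minor K {0, 2} + K.det := by
    unfold lawOf
    rw [if_neg (by decide), if_neg (by decide), if_neg (by decide), if_neg (by decide),
      if_pos rfl]
  have v2 : lawOf K {1} = minor K {1} - minor K {0, 1} - minor K {1, 2} + K.det := by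
    unfold lawOf
    rw [if_neg (by decide), if_neg (by decide), if_neg (by decide), if_neg (by decide),
      if_neg (by decide), if_pos rfl]
  have v3 : lawOf K {2} = minor K {2} - minor K {0, 2} - minor K {1, 2} + K.det := by
    unfold lawOf
    rw [if_neg (by decide), if_neg (by decide), if_neg (by decide), if_neg (by decide),
      if_neg (by decide), if_neg (by decide), if_pos rfl]
  have v01 : lawOf K {0, 1} = minor K {0, 1} - K.det := by
    unfold lawOf
    rw [if_neg (by decide), if_pos rfl]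
  have v02 : lawOf K {0, 2} = minor K {0, 2} - K.det := by
    unfold lawOf
    rw [if_neg (by decide), if_neg (by decide), if_pos rfl]
  have v12 : lawOf K {1, 2} = minor K {1, 2} - K.det := by
    unfold lawOf
    rw [if_neg (by decide), if_neg (by decide), if_neg (by decide), if_pos rfl]
  have vu : lawOf K univ = K.det := by
    unfold lawOf
    rw [if_pos rfl]
  have f0 : (univ.filter (fun T : Finset (Fin 3) => ∅ ⊆ T)) =
      {∅, {0}, {1}, {2}, {0, 1}, {0, 2}, {1, 2}, univ} := by decide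
  have f1 : (univ.filter (fun T : Finset (Fin 3) => {0} ⊆ T)) =
      {{0}, {0, 1}, {0, 2}, univ} := by decide
  have f2 : (univ.filter (fun T : Finset (Fin 3) => {1} ⊆ T)) =
      {{1}, {0, 1}, {1, 2}, univ} := by decide
  have f3 : (univ.filter (fun T : Finset (Fin 3) => {2} ⊆ T)) =
      {{2}, {0, 2}, {1, 2}, univ} := by decide
  have f01 : (univ.filter (fun T : Finset (Fin 3) => {0, 1} ⊆ T)) = {{0, 1}, univ} := by decide
  have f02 : (univ.filter (fun T : Finset (Fin 3) => {0, 2} ⊆ T)) = {{0, 2}, univ} := by decide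
  have f12 : (univ.filter (fun T : Finset (Fin 3) => {1, 2} ⊆ T)) = {{1, 2}, univ} := by decide
  have fu : (univ.filter (fun T : Finset (Fin 3) => univ ⊆ T)) = {univ} := by decide
  rcases hS with rfl | rfl | rfl | rfl | rfl | rfl | rfl | rfl
  · rw [f0, sum_insert (by decide), sum_insert (by decide), sum_insert (by decide),
      sum_insert (by decide), sum_insert (by decide), sum_insert (by decide),
      sum_insert (by decide), sum_singleton, v0, v1, v2, v3, v01, v02, v12, vu, minor_empty]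
    ring
  · rw [f1, sum_insert (by decide), sum_insert (by decide), sum_insert (by decide),
      sum_singleton, v1, v01, v02, vu]
    ring
  · rw [f2, sum_insert (by decide), sum_insert (by decide), sum_insert (by decide),
      sum_singleton, v2, v01, v12, vu]
    ring
  · rw [f3, sum_insert (by decide), sum_insert (by decide), sum_insert (by decide),
      sum_singleton, v3, v02, v12, vu]
    ring
  · rw [f01, sum_pair (by decide), v01, vu]
    ring
  · rw [f02, sum_pair (by decide), v02, vu]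
    ring
  · rw [f12, sum_pair (by decide), v12, vu]
    ring
  · rw [fu, sum_singleton, vu, minor_univ]

/-! ### Compactness -/

lemma isClosed_psd : IsClosed {K : Matrix (Fin 3) (Fin 3) ℝ | K.PosSemidef} := by
  have h : {K : Matrix (Fin 3) (Fin 3) ℝ | K.PosSemidef} =
      {K | K.conjTranspose = K} ∩ ⋂ v : Fin 3 → ℝ, {K | 0 ≤ star v ⬝ᵥ (K.mulVec v)} := by
    ext K
    simp only [Set.mem_inter_iff, Set.mem_iInter, Set.mem_ofPred_eq]
    exact Matrix.posSemidef_iff_dotProduct_mulVec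
  rw [h]
  refine IsClosed.inter (isClosed_eq (by fun_prop) continuous_id) (isClosed_iInter fun v => ?_)
  exact isClosed_le continuous_const (by fun_prop)

lemma entry_bound {K : Matrix (Fin 3) (Fin 3) ℝ} (hK : IsMarginalKernel K) (i j : Fin 3) :
    K i j ∈ Set.Icc (-1 : ℝ) 1 := by
  have hd : ∀ i, 0 ≤ K i i ∧ K i i ≤ 1 := by
    intro i
    refine ⟨hK.1.diag_nonneg, ?_⟩
    have := hK.2.diag_nonneg (i := i)
    rw [Matrix.sub_apply, Matrix.one_apply_eq] at this
    linarith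
  have h1 := (hK.1.submatrix (![i, j] : Fin 2 → Fin 3)).det_nonneg
  rw [Matrix.det_fin_two] at h1
  simp only [Matrix.submatrix_apply, Matrix.cons_val_zero, Matrix.cons_val_one] at h1
  have hs : K j i = K i j := by
    have := hK.1.1.apply i j
    simpa using this
  rw [hs] at h1
  have h2 : K i j ^ 2 ≤ 1 := by
    nlinarith [(hd i).1, (hd i).2, (hd j).1, (hd j).2]
  exact abs_le.1 ((sq_le_one_iff_abs_le_one _).1 h2)

lemma isCompact_marginal : IsCompact {K : Matrix (Fin 3) (Fin 3) ℝ | IsMarginalKernel K} := by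
  have hclosed : IsClosed {K : Matrix (Fin 3) (Fin 3) ℝ | IsMarginalKernel K} := by
    refine isClosed_psd.inter ?_
    exact isClosed_psd.preimage (f := fun K : Matrix (Fin 3) (Fin 3) ℝ => 1 - K)
      (continuous_const.sub continuous_id)
  have hcomp : IsCompact (Set.pi Set.univ (fun _ : Fin 3 => Set.pi Set.univ
      (fun _ : Fin 3 => Set.Icc (-1 : ℝ) 1))) :=
    isCompact_univ_pi fun _ => isCompact_univ_pi fun _ => isCompact_Icc
  refine hcomp.of_isClosed_subset hclosed ?_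
  intro K hK i _ j _
  exact entry_bound hK i j

/-- The kernel `(2/9) I`. -/
noncomputable def K0 : Matrix (Fin 3) (Fin 3) ℝ := Matrix.diagonal (fun _ => 2 / 9)

lemma K0_marginal : IsMarginalKernel K0 := by
  constructor
  · exact Matrix.PosSemidef.diagonal (fun _ => by norm_num)
  · have : (1 : Matrix (Fin 3) (Fin 3) ℝ) - K0 = Matrix.diagonal (fun _ => 7 / 9) := by
      rw [← Matrix.diagonal_one, K0, Matrix.diagonal_sub]
      congr 1
      funext i
      norm_num
    rw [this]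
    exact Matrix.PosSemidef.diagonal (fun _ => by norm_num)

/-- **Main theorem.** On a ground set of size 3 there is a training set of sets with at most two
elements which has an optimal marginal kernel, and all its optimal marginal kernels have rank 3. -/
theorem result : ∃ X : List (Finset (Fin 3)), (∀ S ∈ X, S.card ≤ 2) ∧
    (∃ K P, IsOptimal K P X) ∧ ∀ K P, IsOptimal K P X → K.rank = 3 := by
  refine ⟨X, ?_, ?_, ?_⟩
  · intro S hS
    simp only [X, List.mem_cons, List.not_mem_nil, or_false] at hS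
    rcases hS with rfl | rfl | rfl | rfl | rfl | rfl | rfl | rfl | rfl <;> decide
  · obtain ⟨K, hK, hmax⟩ := isCompact_marginal.exists_isMaxOn ⟨K0, K0_marginal⟩
      (f := fun K => lik (K 0 0) (K 1 1) (K 2 2) (K 0 1) (K 0 2) (K 1 2))
      (by unfold lik; fun_prop)
    refine ⟨K, lawOf K, hK, isLaw_lawOf K, fun K' P' hK' hP' => ?_⟩
    rw [likelihood_eq hK'.1 hP', likelihood_eq hK.1 (isLaw_lawOf K)]
    exact hmax hK'
  · intro K P hopt
    obtain ⟨hK, hP, hmax⟩ := hopt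
    have h1 := hmax K0 (lawOf K0) K0_marginal (isLaw_lawOf K0)
    rw [likelihood_eq K0_marginal.1 (isLaw_lawOf K0), likelihood_eq hK.1 hP] at h1
    have h2 : (27 / 256) ^ 6 * (27 / 64) <
        lik (K0 0 0) (K0 1 1) (K0 2 2) (K0 0 1) (K0 0 2) (K0 1 2) := by
      simp only [K0, Matrix.diagonal_apply_eq, Matrix.diagonal_apply_ne _
        (show (0 : Fin 3) ≠ 1 by decide), Matrix.diagonal_apply_ne _
        (show (0 : Fin 3) ≠ 2 by decide), Matrix.diagonal_apply_ne _
        (show (1 : Fin 3) ≠ 2 by decide), lik]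
      norm_num
    have hdet : K.det ≠ 0 := by
      intro hd
      have := lik_low hK hd
      linarith
    have := Matrix.rank_of_isUnit K ((Matrix.isUnit_iff_isUnit_det K).2 (isUnit_iff_ne_zero.2 hdet))
    simpa using this

end Pool.Agent.Results.MP_dbbe21_pr.HigherRank
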